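import Pool.Agent.H.MP_0fb79d_an.G

namespace Pool.Agent.Results.MP_0fb79d_an.No

open MeasureTheory Filter Topology Set Metric Pool.Agent.Lib.helper10.H10 Pool.Agent.H.MP_0fb79d_an
open scoped ENNReal NNReal

section
variable {Y : Type} [TopologicalSpace Y] [Neg Y]

/-- There is a continuous odd map from `F` to the unit sphere of `ℝ^j`. -/
def OddMap (F : Set Y) (j : ℕ) : Prop :=
  ∃ f : F → EuclideanSpace ℝ (Fin j), Continuous f ∧ (∀ p, ‖f p‖ = 1) ∧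
    ∀ p r : F, r.1 = -p.1 → f r = -f p

/-- Nonempty compact symmetric subsets of `S` of genus at least `k`. -/
def Gen (S : Set Y) (k : ℕ) : Set (Set Y) :=
  {F | IsCompact F ∧ F.Nonempty ∧ F ⊆ S ∧ (∀ p ∈ F, -p ∈ F) ∧ ∀ j, 1 ≤ j → j < k → ¬ OddMap F j}

/-- The min-max values of `e` on `S`. -/
noncomputable def LS (S : Set Y) (e : Y → ℝ) (k : ℕ) : ℝ≥0∞ :=
  ⨅ F ∈ Gen S k, ⨆ p ∈ F, ENNReal.ofReal (e p)

end

section
variable {V : Type} [NormedAddCommGroup V] [InnerProductSpace ℝ V] [CompleteSpace V]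
  [MeasurableSpace V] (μ : Measure V)

/-- Pairs `(u, G)` in `L²(V) × L²(V; V)`. -/
abbrev Y := Lp ℝ 2 μ × Lp V 2 μ

/-- The function `u` of a pair. -/
noncomputable def fn (p : Y μ) : V → ℝ := p.1

/-- The field `G` of a pair. -/
noncomputable def gr (p : Y μ) : V → V := p.2

/-- The energy `‖G‖²`. -/
noncomputable def en (p : Y μ) : ℝ := ‖p.2‖ ^ 2

/-- Test functions `C_0^∞(Ω)`. -/
def Tst (Ω : Set V) (φ : V → ℝ) : Prop :=
  ContDiff ℝ (⊤ : ℕ∞) φ ∧ HasCompactSupport φ ∧ tsupport φ ⊆ Ω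

/-- The pairs `(φ, ∇φ)`, `φ` a test function. -/
def T0 (Ω : Set V) : Set (Y μ) :=
  {p | ∃ φ, Tst Ω φ ∧ fn μ p =ᵐ[μ] φ ∧ gr μ p =ᵐ[μ] gradient φ}

/-- `H^1_0(Ω)`: the closure of `T0` in `L² × L²`. -/
def H (Ω : Set V) : Set (Y μ) := closure (T0 μ Ω)

/-- The unit `L^q` sphere of `H^1_0(Ω)`. -/
def Sq (Ω : Set V) (q : ℝ) : Set (Y μ) :=
  {p | p ∈ H μ Ω ∧ eLpNorm (fn μ p) (ENNReal.ofReal q) μ = 1}

/-- The `q`-spectrum. -/
def Spec (Ω : Set V) (q : ℝ) : Set ℝ :=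
  {l | ∃ p ∈ H μ Ω, ¬ fn μ p =ᵐ[μ] 0 ∧ ∀ φ, Tst Ω φ →
    ∫ x, inner ℝ (gr μ p x) (gradient φ x) ∂μ =
      l * (eLpNorm (fn μ p) (ENNReal.ofReal q) μ).toReal ^ (2 - q) *
        ∫ x, |fn μ p x| ^ (q - 2) * fn μ p x * φ x ∂μ}

/-- The Lusternik-Schnirelman values. -/
noncomputable def lamLS (Ω : Set V) (q : ℝ) (k : ℕ) : ℝ≥0∞ := LS (Sq μ Ω q) (en μ) k

end

/-- The `q`-spectrum in `ℝ³` with Lebesgue measure. -/
def Spec3 (Ω : Set (EuclideanSpace ℝ (Fin 3))) (q : ℝ) : Set ℝ := Spec volume Ω q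

/-- The energies of the elements of the unit `L^q` sphere, in `ℝ³` with Lebesgue measure. -/
def Val3 (Ω : Set (EuclideanSpace ℝ (Fin 3))) (q : ℝ) : Set ℝ := en volume '' Sq volume Ω q

/-- The Lusternik-Schnirelman values in `ℝ³` with Lebesgue measure. -/
noncomputable def lam3 (Ω : Set (EuclideanSpace ℝ (Fin 3))) (q : ℝ) (k : ℕ) : ℝ≥0∞ :=
  lamLS volume Ω q k

attribute [local instance] fact32

lemma J_norm {Ω : Set (E 3)} {J : Hs Ω →L[ℝ] L32} (hJ : ∀ p, J p =ᵐ[volume] p.1.1) (p : Hs Ω) :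
    eLpNorm p.1.1 (ENNReal.ofReal (3 / 2)) volume = ENNReal.ofReal ‖J p‖ := by
  rw [show ENNReal.ofReal (3 / 2) = ((3 / 2 : ℝ≥0) : ℝ≥0∞) by
    rw [← ENNReal.ofReal_coe_nnreal]; simp, ← eLpNorm_congr_ae (hJ p), ofReal_norm, Lp.enorm_def]

lemma spec {Ω : Set (E 3)} (hΩ : Bornology.IsBounded Ω) (hm : MeasurableSet Ω)
    {J : Hs Ω →L[ℝ] L32} (hJ : ∀ p, J p =ᵐ[volume] p.1.1) :
    Spec3 Ω (3 / 2) = {m | ∃ p, Crit J m p} := by
  have e1 : ∀ (p : Hs Ω) φ (h : Test Ω φ), ∫ x, inner ℝ (p.1.2 x) (gradient φ x) =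
      inner ℝ p.1.2 (pair h).1.2 := fun p φ h => by
    rw [L2.inner_def]
    exact integral_congr_ae ((pair_snd h).mono fun x hx => by simp only [hx])
  have e2 : ∀ (p : Hs Ω) φ (h : Test Ω φ), ∫ x, |p.1.1 x| ^ ((3 / 2 : ℝ) - 2) * p.1.1 x * φ x =
      ∫ x, ff (p.1.1 x) * (pair h).1.1 x := fun p φ h =>
    integral_congr_ae ((pair_fst h).mono fun x hx => by simp only [hx, ff_eq])
  ext l
  constructor
  · rintro ⟨p, hp, h0, h⟩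
    lift p to Hs Ω using hp
    unfold fn gr at *
    have n0 : 0 < ‖J p‖ := norm_pos_iff.2 fun z =>
      h0 ((hJ p).symm.trans (z ▸ Lp.coeFn_zero _ _ _))
    have s0 := inv_pos.2 (Real.sqrt_pos.2 n0)
    have s1 : (√‖J p‖)⁻¹ ^ 2 * ‖J p‖ = 1 := by
      rw [inv_pow, Real.sq_sqrt n0.le, inv_mul_cancel₀ n0.ne']
    have e3 : ∀ r : Hs Ω, ∫ x, ff (p.1.1 x) * r.1.1 x =
        inner ℝ ((memff hΩ hm p).toLp _) r.1.1 := fun r => by
      rw [L2.inner_def]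
      exact integral_congr_ae ((memff hΩ hm p).coeFn_toLp.mono fun x hx => by
        simp [hx, mul_comm])
    have k : ∀ r : Hs Ω, inner ℝ p.1.2 r.1.2 = l * √‖J p‖ * ∫ x, ff (p.1.1 x) * r.1.1 x := by
      have k0 : ∀ φ (hφ : Test Ω φ), inner ℝ p.1.2 (pair hφ).1.2 =
          l * √‖J p‖ * inner ℝ ((memff hΩ hm p).toLp _) (pair hφ).1.1 := fun φ hφ => by
        rw [← e1, ← e3, ← e2, h φ hφ, J_norm hJ, ENNReal.toReal_ofReal n0.le, Real.sqrt_eq_rpow]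
        norm_num
      intro r
      have c1 : Continuous fun r : Hs Ω => inner ℝ p.1.2 r.1.2 := by fun_prop
      have c2 : Continuous fun r : Hs Ω =>
          l * √‖J p‖ * inner ℝ ((memff hΩ hm p).toLp _) r.1.1 := by fun_prop
      rw [e3]
      exact le_antisymm (dense_le c1 c2 (fun φ h => (k0 φ h).le) r)
        (dense_le c2 c1 (fun φ h => (k0 φ h).ge) r)
    refine ⟨(√‖J p‖)⁻¹ ^ 2 • p, by rw [map_smul, norm_smul, Real.norm_of_nonneg (sq_nonneg _), s1],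
      fun r => ?_⟩
    have e4 : ∫ x, ff (((√‖J p‖)⁻¹ ^ 2 • p).1.1 x) * r.1.1 x =
        (√‖J p‖)⁻¹ * ∫ x, ff (p.1.1 x) * r.1.1 x := by
      rw [← integral_const_mul]
      refine integral_congr_ae ((Lp.coeFn_smul ((√‖J p‖)⁻¹ ^ 2) p.1.1).mono fun x hx => ?_)
      change ff (((√‖J p‖)⁻¹ ^ 2 • p.1.1) x) * _ = _
      rw [hx, Pi.smul_apply, smul_eq_mul, ff_smul s0, mul_assoc]
    rw [e4]
    change inner ℝ (_ • p.1.2) _ = _
    rw [real_inner_smul_left, k]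
    field_simp
  · rintro ⟨p, p1, p2⟩
    refine ⟨p.1, p.2, fun h0 => ?_, fun φ h => ?_⟩
    · have := J_norm hJ p
      unfold fn at h0
      rw [p1, eLpNorm_congr_ae h0] at this
      simp at this
    · unfold fn gr
      rw [e1 p φ h, e2 p φ h, J_norm hJ, p1, p2]
      simp

theorem result : ∃ q : ℝ, 1 < q ∧ q < 2 ∧
    ∃ Ω : Set (EuclideanSpace ℝ (Fin 3)), IsOpen Ω ∧ Bornology.IsBounded Ω ∧ IsConnected Ω ∧
      ∃ l₁ l₂ : ℝ, 0 < l₁ ∧ IsLeast (Val3 Ω q) l₁ ∧ ¬AccPt l₁ (𝓟 (Spec3 Ω q)) ∧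
        IsGLB {l ∈ Spec3 Ω q | l₁ < l} l₂ ∧ ENNReal.ofReal l₂ < lam3 Ω q 2 := by
  obtain ⟨Ω, o, bd, cn, J, hJ, l, m, M, l0, lm, mM, hI, ⟨p, hp⟩, hm, hA, T, hT⟩ := main
  have n1 : ∀ p : Hs Ω, p.1 ∈ Sq volume Ω (3 / 2) ↔ ‖J p‖ = 1 := fun p => by
    rw [← ENNReal.ofReal_eq_one, ← J_norm hJ]
    exact and_iff_right p.2
  have g := isGLB_csInf (s := {a ∈ {m | ∃ p, Crit J m p} | l < a}) ⟨m, hm, lm⟩
    ⟨l, fun _ h => h.2.le⟩
  refine ⟨3 / 2, by norm_num, by norm_num, Ω, o, bd, cn, l, _, l0,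
    ⟨⟨p.1, (n1 p).2 hp.1, hp.en hJ⟩, ?_⟩, spec bd o.measurableSet hJ ▸ hA,
    spec bd o.measurableSet hJ ▸ g, lt_of_lt_of_le ((ENNReal.ofReal_lt_ofReal_iff
      (l0.trans (lm.trans mM))).2 ((g.1 ⟨hm, lm⟩).trans_lt mM)) (le_iInf₂ fun F hF => ?_)⟩
  · rintro _ ⟨r, hr, rfl⟩
    simpa [en, (n1 ⟨r, hr.1⟩).1 hr] using hI.H hJ ⟨r, hr.1⟩
  obtain ⟨-, -, h1, -, h2⟩ := hF
  have hΦ : Continuous fun p : F => T p.1.1 := by fun_prop
  obtain ⟨p, hp⟩ : ∃ p : F, T p.1.1 = 0 := by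
    by_contra! h
    refine h2 1 le_rfl (by omega) ⟨fun p => (T p.1.1 / |T p.1.1|) • EuclideanSpace.single 0 (1 : ℝ),
      (hΦ.div hΦ.abs fun p => abs_ne_zero.2 (h p)).smul continuous_const, fun p => ?_,
      fun p r hr => ?_⟩
    · simp [norm_smul, h p]
    · simp only [hr, Prod.fst_neg, map_neg, abs_neg, neg_div, neg_smul]
  exact le_trans (ENNReal.ofReal_le_ofReal (hT ⟨p.1, (h1 p.2).1⟩ ((n1 _).1 (h1 p.2)) hp))
    (le_iSup₂_of_le p.1 p.2 le_rfl)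

end Pool.Agent.Results.MP_0fb79d_an.No
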